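import Pool.Agent.SHA.StmtsB

/-!
Squad SHA, row B_SYH: exact systems, halving.
-/

set_option autoImplicit false

namespace Pool.Agent.SHA.H3

open Pool.Agent.SHA

theorem syh : SYHStmt := by
  classical
  rintro a k ρ hk hρ h1 h2 ⟨ι, κ, fι, fκ, R, m, y, hc, hR, hm, hy, hcol, hrow, htot⟩
  have hk0 : (0 : ℝ) < k := by exact_mod_cast hk
  have hk1 : (1 : ℝ) ≤ k := by exact_mod_cast hk
  have hmass : ∑ i, m i = ρ := by rw [total_mass hcol hrow, htot]
  obtain ⟨p, hp⟩ : ∃ p : ℝ, p = (ρ + 1 - k) / 2 := ⟨_, rfl⟩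
  obtain ⟨q, hq⟩ : ∃ q : ℝ, q = (ρ + k - 1) / 2 := ⟨_, rfl⟩
  obtain ⟨r, hr⟩ : ∃ r : ℝ, r = (1 + k - ρ) / 2 := ⟨_, rfl⟩
  have hp0 : 0 ≤ p := by rw [hp]; linarith
  have hq0 : 0 ≤ q := by rw [hq]; linarith
  have hr0 : 0 ≤ r := by rw [hr]; linarith
  have hpq : p + q = ρ := by rw [hp, hq]; ring
  have hpr : p + r = 1 := by rw [hp, hr]; ring
  have hqr : q + r = k := by rw [hq, hr]; ring
  refine ⟨ι ⊕ ((ι × Fin k) ⊕ Fin k), κ ⊕ (Unit ⊕ Fin k), inferInstance, inferInstance,
    fun x c => match x, c with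
      | Sum.inl i, Sum.inl j => R i j
      | Sum.inl _, Sum.inr (Sum.inl _) => 1
      | Sum.inl _, Sum.inr (Sum.inr _) => 0
      | Sum.inr (Sum.inl t), Sum.inl j => R t.1 j
      | Sum.inr (Sum.inl _), Sum.inr (Sum.inl _) => 0
      | Sum.inr (Sum.inl t), Sum.inr (Sum.inr l) => if t.2 = l then 1 else 0
      | Sum.inr (Sum.inr _), Sum.inl _ => 0
      | Sum.inr (Sum.inr _), Sum.inr (Sum.inl _) => 1
      | Sum.inr (Sum.inr t), Sum.inr (Sum.inr l) => if t = l then 1 else 0,
    fun x => match x with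
      | Sum.inl i => m i * (p / ρ)
      | Sum.inr (Sum.inl t) => m t.1 * (q / (ρ * k))
      | Sum.inr (Sum.inr _) => r / k,
    fun c => match c with
      | Sum.inl j => y j / 2
      | Sum.inr (Sum.inl _) => 1 / 2
      | Sum.inr (Sum.inr _) => 1 / 2, ?_, ?_, ?_, ?_, ?_, ?_, ?_⟩
  · simp only [Fintype.card_sum, Fintype.card_unit, Fintype.card_fin, hc]
    omega
  · rintro (i | t | t) (j | j | l)
    · exact hR i j
    · exact Or.inr rfl
    · exact Or.inl rfl
    · exact hR t.1 j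
    · exact Or.inl rfl
    · show (if t.2 = l then (1 : ℝ) else 0) = 0 ∨ (if t.2 = l then (1 : ℝ) else 0) = 1
      by_cases h : t.2 = l
      · rw [if_pos h]; exact Or.inr rfl
      · rw [if_neg h]; exact Or.inl rfl
    · exact Or.inl rfl
    · exact Or.inr rfl
    · show (if t = l then (1 : ℝ) else 0) = 0 ∨ (if t = l then (1 : ℝ) else 0) = 1
      by_cases h : t = l
      · rw [if_pos h]; exact Or.inr rfl
      · rw [if_neg h]; exact Or.inl rfl
  · rintro (i | t | t)
    · exact mul_nonneg (hm i) (by positivity)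
    · exact mul_nonneg (hm t.1) (by positivity)
    · show 0 ≤ r / k
      positivity
  · rintro (j | j | l)
    · show 0 ≤ y j / 2
      have := hy j
      positivity
    · show (0 : ℝ) ≤ 1 / 2
      norm_num
    · show (0 : ℝ) ≤ 1 / 2
      norm_num
  · rintro (j | j | l)
    · rw [Fintype.sum_sum_type, Fintype.sum_sum_type, Fintype.sum_prod_type]
      show ∑ i, m i * (p / ρ) * R i j + (∑ i, ∑ _l : Fin k, m i * (q / (ρ * k)) * R i j +
        ∑ _l : Fin k, r / k * 0) = 1
      have e1 : ∑ i, m i * (p / ρ) * R i j = p / ρ := by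
        have e0 : ∑ i, m i * (p / ρ) * R i j = p / ρ * ∑ i, m i * R i j := by
          rw [Finset.mul_sum]
          exact Finset.sum_congr rfl fun i _ => by ring
        rw [e0, hcol j, mul_one]
      have e2 : ∑ i, ∑ _l : Fin k, m i * (q / (ρ * k)) * R i j = q / ρ := by
        have : ∀ i, ∑ _l : Fin k, m i * (q / (ρ * k)) * R i j = q / ρ * (m i * R i j) := by
          intro i
          rw [Finset.sum_const, Finset.card_univ, Fintype.card_fin, nsmul_eq_mul]
          field_simp
        rw [Finset.sum_congr rfl fun i _ => this i, ← Finset.mul_sum, hcol j, mul_one]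
      rw [e1, e2]
      simp only [mul_zero, Finset.sum_const_zero, add_zero]
      rw [← add_div, hpq, div_self hρ.ne']
    · rw [Fintype.sum_sum_type, Fintype.sum_sum_type, Fintype.sum_prod_type]
      show ∑ i, m i * (p / ρ) * 1 + (∑ i, ∑ _l : Fin k, m i * (q / (ρ * k)) * 0 +
        ∑ _l : Fin k, r / k * 1) = 1
      have e1 : ∑ i, m i * (p / ρ) * 1 = p := by
        rw [← Finset.sum_mul, ← Finset.sum_mul, hmass]
        field_simp
      rw [e1]
      simp only [mul_zero, Finset.sum_const_zero, zero_add, mul_one, Finset.sum_const,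
        Finset.card_univ, Fintype.card_fin, nsmul_eq_mul]
      rw [mul_div_cancel₀ _ hk0.ne', hpr]
    · rw [Fintype.sum_sum_type, Fintype.sum_sum_type, Fintype.sum_prod_type]
      show ∑ i, m i * (p / ρ) * 0 + (∑ i, ∑ t : Fin k, m i * (q / (ρ * k)) *
        (if t = l then 1 else 0) + ∑ t : Fin k, r / k * (if t = l then 1 else 0)) = 1
      simp only [mul_zero, Finset.sum_const_zero, zero_add, mul_ite, mul_one,
        Finset.sum_ite_eq', Finset.mem_univ, if_true]
      rw [← Finset.sum_mul, hmass]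
      have e : ρ * (q / (ρ * k)) + r / k = (q + r) / k := by field_simp
      rw [e, hqr, div_self hk0.ne']
  · rintro (i | t | t)
    · rw [Fintype.sum_sum_type, Fintype.sum_sum_type]
      show ∑ j, R i j * (y j / 2) + (∑ _u : Unit, (1 : ℝ) * (1 / 2) + ∑ _l : Fin k,
        (0 : ℝ) * (1 / 2)) = 1
      have e1 : ∑ j, R i j * (y j / 2) = 1 / 2 := by
        rw [← hrow i, Finset.sum_div]
        exact Finset.sum_congr rfl fun j _ => by ring
      rw [e1]
      simp
      norm_num
    · rw [Fintype.sum_sum_type, Fintype.sum_sum_type]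
      show ∑ j, R t.1 j * (y j / 2) + (∑ _u : Unit, (0 : ℝ) * (1 / 2) + ∑ l : Fin k,
        (if t.2 = l then 1 else 0 : ℝ) * (1 / 2)) = 1
      have e1 : ∑ j, R t.1 j * (y j / 2) = 1 / 2 := by
        rw [← hrow t.1, Finset.sum_div]
        exact Finset.sum_congr rfl fun j _ => by ring
      rw [e1]
      simp
      norm_num
    · rw [Fintype.sum_sum_type, Fintype.sum_sum_type]
      show ∑ j, (0 : ℝ) * (y j / 2) + (∑ _u : Unit, (1 : ℝ) * (1 / 2) + ∑ l : Fin k,
        (if t = l then 1 else 0 : ℝ) * (1 / 2)) = 1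
      simp
      norm_num
  · rw [Fintype.sum_sum_type, Fintype.sum_sum_type]
    show ∑ j, y j / 2 + (∑ _u : Unit, (1 / 2 : ℝ) + ∑ _l : Fin k, (1 / 2 : ℝ)) =
      (ρ + k + 1) / 2
    rw [← Finset.sum_div, htot]
    simp
    ring

end Pool.Agent.SHA.H3
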